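import Pool.Agent.L0h3.LC.Pts
import Pool.Agent.TH841.NF.ShaN

/-!
# The truncated numerical forms of the strong conjecture of Birch and Swinnerton-Dyer over `ℚ`

Let `E` be an elliptic curve over `ℚ`, given by a global minimal model `W`, let
`L(E, s) = ∏_p (1 - a_p p^{-s} + e_p p^{-2s})⁻¹` (`e_p = p` for `p ∤ Δ`, `e_p = 0` for `p ∣ Δ`) be its
L-series, `1 - a_p T + e_p T² = (1 - α_p T)(1 - β_p T)`, and `F` the entire continuation (which exists by
modularity). For a function `w` on `[0, 1]` put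

`S_w(X) = ∑_{p^k ≤ X} w(log p^k / log X) (α_p^k + β_p^k) / (k p^k)`.

For `p ∤ Δ` one has `α_p^k + β_p^k = p^k + 1 - #E(𝔽_{p^k})`, so that `S_w` is a weighted sum over the
numbers of points of `E` over the finite fields with at most `X` elements. For the sharp cut-off `w = 1`
Goldfeld (1982) proved that `S_1(X) + ρ log log X → κ` implies the Riemann hypothesis, `ρ = ord_{s=1} F` and
the value of the leading coefficient. Here `w` is any measurable bounded function on
`[0, 1]` with `w → w₀ ≠ 0` at `0` and `∫_0^1 |w(y) - w₀| dy / y < ∞` (there is no other condition: `w` may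
be complex-valued, may vanish on an interval, its Mellin transform may have any zeros). Put
`c_w = ∫_0^1 (w(y) - w₀) dy / y`, let `γ` be Euler's constant.

* (A) If `S_w(X) + A log log X → κ` for some complex numbers `A`, `κ`, then `F` has no zeros with
  `Re s > 1`, `A = w₀ n` for `n = ord_{s=1} F`, the leading coefficient `b = F^{(n)}(1) / n!` is positive, and
  `κ = w₀ (log b - n γ) - n c_w`.
* (B) Conversely (if `F` has at most exponential growth in `Re s > 1`, which is known) the Riemann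
  hypothesis implies `S_w(X) = - w(0) n log log X + w(0) (log b - n γ) - n c_w + O(1 / log X)` for all `w`
  of class `C³` on `ℝ` which vanish on `[1, ∞)`. (For `w = 1` this is not known under the Riemann hypothesis.)
* (C) Let `P_1, …, P_r` be a basis of `E(ℚ)` modulo torsion, and let
  `β = Ω Reg |Ш| ∏ c_p / |E(ℚ)_tors|²`. Then the following are equivalent:
  (1) the Riemann hypothesis and the strong conjecture: `ord_{s=1} F = r`, `Ш` is finite,
  `F^{(r)}(1) / r! = β`;
  (2) `Ш` is finite, `β > 0`, and `S_w(X) + w₀ r log log X → w₀ (log β - r γ) - r c_w` for ONE weight `w`;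
  (3) `Ш` is finite, `β > 0`, and `S_w(X) = - w(0) r log log X + w(0) (log β - r γ) - r c_w + O(1 / log X)`
  for ALL `w` of class `C³` vanishing on `[1, ∞)`.

So each of the truncated numerical forms of the strong conjecture contains the Riemann hypothesis, and
all the smooth ones are equivalent to each other.

Proof (`Pool/Agent/L0h3/WB`, `Pool/Agent/L0h3/LC`). Prime powers are included in `S_w`, so that no
information on the symmetric square is needed. The Laplace transform of `S_w(e^T)` is the multiplicative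
convolution of `w` with the logarithmic derivative of `F(1 + z)`; the zeros of `F` with `Re s > 1` would
give jumps of it along rays. The constant is found from an Abelian theorem at `z → 0`, with the next term
of the expansion. For (B) the Riesz mean of order two is computed by Perron's formula on the line
`Re z = 1 / log X` up to `O(1 / log X)`, and the constant is identified by (A).
-/

set_option autoImplicit false

namespace Pool.Agent.Results.MP_4a9ea6_nt.TruncatedLeadingTerm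

open NumberField IsDedekindDomain WeierstrassCurve MeasureTheory Filter Topology
open Pool.Agent.TH841.NF.D (Sha)
open Pool.Agent.TH841.SH.D (Pt)

/-! ### The arithmetic of the curve -/

/-- The curve over `ℚ`. -/
abbrev E (W : WeierstrassCurve ℤ) : WeierstrassCurve ℚ := W.map (Int.castRingHom ℚ)

/-- The equation is minimal at the place `v`: no change of variables over `ℚ` that keeps the
coefficients integral at `v` decreases the order of the discriminant. -/
def MinimalAt (W : WeierstrassCurve ℚ) (v : HeightOneSpectrum (𝓞 ℚ)) : Prop :=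
  ∀ C : VariableChange ℚ, v.valuation ℚ (C • W).a₁ ≤ 1 → v.valuation ℚ (C • W).a₂ ≤ 1 →
    v.valuation ℚ (C • W).a₃ ≤ 1 → v.valuation ℚ (C • W).a₄ ≤ 1 → v.valuation ℚ (C • W).a₆ ≤ 1 →
    v.valuation ℚ (C • W).Δ ≤ v.valuation ℚ W.Δ

/-- `W⁰(ℚ_v)`, the group of the points of `W` over the completion `ℚ_v` with nonsingular reduction:
the point at infinity and the points `(x, y)` where `x` is not integral, or one of the partial
derivatives of `y² + a₁ x y + a₃ y - x³ - a₂ x² - a₄ x - a₆` is a unit at `(x, y)`.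
Here `Pt W ℚ_v` is the group of the points of `W` over `ℚ_v`. -/
noncomputable def nonsing (W : WeierstrassCurve ℚ) (v : HeightOneSpectrum (𝓞 ℚ)) :
    AddSubgroup (Pt W (v.adicCompletion ℚ)) :=
  AddSubgroup.closure {P | ∀ x y h, P = Affine.Point.some x y h →
    1 < Valued.v x ∨
    Valued.v ((W.baseChange (v.adicCompletion ℚ)).a₁ * y -
      (3 * x ^ 2 + 2 * (W.baseChange (v.adicCompletion ℚ)).a₂ * x +
        (W.baseChange (v.adicCompletion ℚ)).a₄)) = 1 ∨
    Valued.v (2 * y + (W.baseChange (v.adicCompletion ℚ)).a₁ * x +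
      (W.baseChange (v.adicCompletion ℚ)).a₃) = 1}

/-- The product of the Tamagawa numbers `c_v = [W(ℚ_v) : W⁰(ℚ_v)]` of a minimal equation. -/
noncomputable def Tam (W : WeierstrassCurve ℚ) : ℕ :=
  ∏ᶠ v : HeightOneSpectrum (𝓞 ℚ), (nonsing W v).index

/-- `4 x³ + b₂ x² + 2 b₄ x + b₆ = (2 y + a₁ x + a₃)²`. -/
def cubic (W : WeierstrassCurve ℤ) (x : ℝ) : ℝ := 4 * x ^ 3 + W.b₂ * x ^ 2 + 2 * W.b₄ * x + W.b₆

/-- `Ω = ∫_{W(ℝ)} |ω|` with `ω = dx / (2 y + a₁ x + a₃)`, as an integral over `x`: two real points lie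
over each `x` with `cubic x > 0`. -/
noncomputable def Omega (W : WeierstrassCurve ℤ) : ℝ :=
  2 * ∫ x in {x : ℝ | 0 < cubic W x}, 1 / √(cubic W x)

/-- The order of the torsion subgroup of `E(ℚ)`. -/
noncomputable def torsOrder (W : WeierstrassCurve ℤ) : ℕ :=
  Nat.card (AddCommGroup.torsion (E W).toAffine.Point)

/-- The height of the `x`-coordinate: `log max(|a|, b)` for `x = a / b` in lowest terms. -/
noncomputable def heightX (W : WeierstrassCurve ℤ) : (E W).toAffine.Point → ℝ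
  | .zero => 0
  | .some x _ _ => Real.log (max x.num.natAbs x.den : ℕ)

/-- The canonical height `lim 4^{-n} h(x(2^n P))`. -/
noncomputable def height (W : WeierstrassCurve ℤ) (P : (E W).toAffine.Point) : ℝ :=
  limUnder atTop fun n : ℕ => heightX W (2 ^ n • P) / 4 ^ n

/-- The pairing of Néron and Tate, `⟨P, P⟩ = height P`. -/
noncomputable def pairing (W : WeierstrassCurve ℤ) (P Q : (E W).toAffine.Point) : ℝ :=
  (height W (P + Q) - height W P - height W Q) / 2

/-- `P_1, …, P_r` is a basis of `E(ℚ)` modulo torsion: every point is, up to a torsion point, a unique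
integral combination of them. So `r` is the rank of `E(ℚ)`. -/
def IsBasisModTorsion (W : WeierstrassCurve ℤ) {r : ℕ} (P : Fin r → (E W).toAffine.Point) : Prop :=
  ∀ Q : (E W).toAffine.Point, ∃! m : Fin r → ℤ, IsOfFinAddOrder (Q - ∑ i, m i • P i)

/-- The regulator `det ⟨P_i, P_j⟩`. -/
noncomputable def Reg (W : WeierstrassCurve ℤ) {r : ℕ} (P : Fin r → (E W).toAffine.Point) : ℝ :=
  Matrix.det (Matrix.of fun i j => pairing W (P i) (P j))

/-- The right-hand side of the formula, `β = Ω Reg |Ш| ∏ c_p / |E(ℚ)_tors|²`. -/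
noncomputable def predicted (W : WeierstrassCurve ℤ) {r : ℕ} (P : Fin r → (E W).toAffine.Point) : ℝ :=
  Omega W * Reg W P * Nat.card (Sha (E W)) * Tam (E W) / (torsOrder W : ℝ) ^ 2

/-! ### The L-function and the weighted sums -/

/-- The number of the points of the reduction modulo `p` different from the point at infinity. -/
noncomputable def affineCount (W : WeierstrassCurve ℤ) (p : ℕ) : ℕ :=
  Nat.card {P : ZMod p × ZMod p // P.2 ^ 2 + (W.a₁ : ZMod p) * P.1 * P.2 + (W.a₃ : ZMod p) * P.2 =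
    P.1 ^ 3 + (W.a₂ : ZMod p) * P.1 ^ 2 + (W.a₄ : ZMod p) * P.1 + (W.a₆ : ZMod p)}

/-- `a_p = p + 1 - #Ẽ(𝔽_p)`. -/
noncomputable def ap (W : WeierstrassCurve ℤ) (p : ℕ) : ℤ := p - affineCount W p

/-- `e_p = p` for `p ∤ Δ` and `e_p = 0` for `p ∣ Δ`. -/
noncomputable def ep (W : WeierstrassCurve ℤ) (p : ℕ) : ℤ := if (p : ℤ) ∣ W.Δ then 0 else p

/-- `F` is entire and equal to `L(E, s) = ∏_p (1 - a_p p^{-s} + e_p p^{-2s})⁻¹` for `Re s > 3/2`. -/
def IsL (W : WeierstrassCurve ℤ) (F : ℂ → ℂ) : Prop :=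
  Differentiable ℂ F ∧ ∀ s : ℂ, 3 / 2 < s.re →
    HasProd (fun p : Nat.Primes => (1 - (ap W p : ℂ) * ((p : ℕ) : ℂ) ^ (-s) +
      (ep W p : ℂ) * (((p : ℕ) : ℂ) ^ (-s)) ^ 2)⁻¹) (F s)

/-- The Riemann hypothesis for `F` (the half-plane `Re s > 1`; see the functional equation). -/
def RH (F : ℂ → ℂ) : Prop := ∀ s : ℂ, 1 < s.re → F s ≠ 0

/-- The power sums `α^k + β^k` of the numbers with `α + β = a`, `α β = e`. -/
def powerSum (a e : ℤ) : ℕ → ℤ
  | 0 => 2
  | 1 => a
  | k + 2 => a * powerSum a e (k + 1) - e * powerSum a e k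

/-- `(α_p^k + β_p^k) / (k p^k)` at a prime power `n = p^k`, `p = n.minFac`, `k` the exponent of `p`
in `n`. -/
noncomputable def coef (W : WeierstrassCurve ℤ) (n : ℕ) : ℝ :=
  ((powerSum (ap W n.minFac) (ep W n.minFac) (n.factorization n.minFac) : ℤ) : ℝ) /
    ((n.factorization n.minFac : ℕ) * n)

open Classical in
/-- `S_w(X) = ∑_{n = p^k ≤ X} w(log n / log X) (α_p^k + β_p^k) / (k n)`. -/
noncomputable def S (W : WeierstrassCurve ℤ) (w : ℝ → ℂ) (X : ℝ) : ℂ :=
  ∑ n ∈ (Finset.range (⌊X⌋₊ + 1)).filter IsPrimePow,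
    w (Real.log n / Real.log X) * (coef W n : ℂ)

/-- A weight with the value `w₀ ≠ 0` at zero: a measurable function, bounded on `[0, 1]`, with the
limit `w₀` at `0+` and `∫_0^1 |w(y) - w₀| dy / y < ∞`. -/
def Weight (w : ℝ → ℂ) (w₀ : ℂ) : Prop :=
  Measurable w ∧ (∃ B : ℝ, ∀ y ∈ Set.Icc (0 : ℝ) 1, ‖w y‖ ≤ B) ∧ w₀ ≠ 0 ∧
    Tendsto w (𝓝[>] 0) (𝓝 w₀) ∧
    IntegrableOn (fun y : ℝ => (w y - w₀) / (y : ℂ)) (Set.Ioo (0 : ℝ) 1)

/-- `c_w = ∫_0^1 (w(y) - w₀) dy / y`. -/
noncomputable def cst (w : ℝ → ℂ) (w₀ : ℂ) : ℂ := ∫ y in Set.Ioo (0 : ℝ) 1, (w y - w₀) / (y : ℂ)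

/-- The constant `w₀ (log b - r γ) - r c_w`. -/
noncomputable def limitConst (w : ℝ → ℂ) (w₀ : ℂ) (r : ℕ) (b : ℝ) : ℂ :=
  w₀ * (Real.log b - r * Real.eulerMascheroniConstant) - r * cst w w₀

/-- The leading term of `F` at `s = 1` is `b (s - 1)^n`: the order of vanishing is `n` and
`F^{(n)}(1) / n! = b`. -/
def LeadingTerm (F : ℂ → ℂ) (n : ℕ) (b : ℝ) : Prop :=
  analyticOrderAt F 1 = n ∧ iteratedDeriv n F 1 / (n.factorial : ℂ) = b

/-- At most exponential growth in `Re s > 1`. -/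
def ExpGrowth (F : ℂ → ℂ) : Prop :=
  ∃ K : ℝ, ∀ s : ℂ, 1 < s.re → ‖F s‖ ≤ Real.exp (K * (1 + ‖s‖))

/-- The law with one weight: `S_w(X) + w₀ r log log X → w₀ (log b - r γ) - r c_w`. -/
def Law (W : WeierstrassCurve ℤ) (w : ℝ → ℂ) (w₀ : ℂ) (r : ℕ) (b : ℝ) : Prop :=
  Tendsto (fun X : ℝ => S W w X + w₀ * r * (Real.log (Real.log X) : ℂ)) atTop
    (𝓝 (limitConst w w₀ r b))

/-- The law with the error term for all the weights of class `C³` which vanish on `[1, ∞)`:
`S_w(X) = - w(0) r log log X + w(0) (log b - r γ) - r c_w + O(1 / log X)`. -/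
def SmoothLaw (W : WeierstrassCurve ℤ) (r : ℕ) (b : ℝ) : Prop :=
  ∀ w : ℝ → ℂ, ContDiff ℝ 3 w → (∀ y : ℝ, 1 ≤ y → w y = 0) →
    ∃ M : ℝ, ∀ X : ℝ, 3 ≤ X →
      ‖S W w X + w 0 * r * (Real.log (Real.log X) : ℂ) - limitConst w (w 0) r b‖ ≤ M / Real.log X

/-- The strong conjecture of Birch and Swinnerton-Dyer for `W`, where `P_1, …, P_r` is a basis of
`E(ℚ)` modulo torsion. -/
def StrongBSD (W : WeierstrassCurve ℤ) (F : ℂ → ℂ) {r : ℕ}
    (P : Fin r → (E W).toAffine.Point) : Prop :=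
  Finite (Sha (E W)) ∧ LeadingTerm F r (predicted W P)

/-! ### The proof -/

section proof

variable {W : WeierstrassCurve ℤ} {F : ℂ → ℂ}

theorem powerSum_eq (a e : ℤ) : ∀ k : ℕ, powerSum a e k = L0h3.LC.ps a e k
  | 0 => rfl
  | 1 => rfl
  | k + 2 => by
    unfold powerSum L0h3.LC.ps
    rw [powerSum_eq a e (k + 1), powerSum_eq a e k]

theorem S_eq (W : WeierstrassCurve ℤ) (w : ℝ → ℂ) (X : ℝ) :
    S W w X = L0h3.LC.wS (ap W) (ep W) w X := by
  unfold S L0h3.LC.wS
  refine Finset.sum_congr rfl fun n _ => ?_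
  unfold coef
  rw [powerSum_eq]
  push_cast
  ring

theorem dat (W : WeierstrassCurve ℤ) : L0h3.LC.Dat (ap W) (ep W) := L0h3.LC.dat_curve W

theorem isEP (hF : IsL W F) : L0h3.LC.IsEP (ap W) (ep W) F :=
  ⟨hF.1, fun s hs => hF.2 s (by linarith)⟩

theorem any_weight (hF : IsL W F) {w : ℝ → ℂ} {w₀ : ℂ} (hw : Weight w w₀) {A κ : ℂ}
    (h : Tendsto (fun X : ℝ => S W w X + A * (Real.log (Real.log X) : ℂ)) atTop (𝓝 κ)) :
    RH F ∧ ∃ (n : ℕ) (b : ℝ), 0 < b ∧ LeadingTerm F n b ∧ A = w₀ * n ∧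
      κ = limitConst w w₀ n b := by
  obtain ⟨hwm, ⟨B, hB⟩, hw0, ht, hd⟩ := hw
  obtain ⟨h1, n, b, h2, h3, h4, h5, h6⟩ := L0h3.LC.law_fwd (dat W) (isEP hF) hwm hB hw0 ht hd
    (h.congr fun X => by rw [S_eq])
  exact ⟨h1, n, b, h3, ⟨h2, h4⟩, h5, h6⟩

theorem smooth (hF : IsL W F) (hgrow : ExpGrowth F) (hRH : RH F) :
    ∃ (n : ℕ) (b : ℝ), 0 < b ∧ LeadingTerm F n b ∧ SmoothLaw W n b := by
  obtain ⟨n, b, h1, h2, h3, h4⟩ := L0h3.LC.law_bwd (dat W) (isEP hF) hgrow hRH
  refine ⟨n, b, h2, ⟨h1, h3⟩, fun w hw hw1 => ?_⟩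
  obtain ⟨M, hM⟩ := h4 w hw hw1
  refine ⟨M, fun X hX => ?_⟩
  rw [S_eq]
  exact hM X hX

theorem leading_unique {n m : ℕ} {b c : ℝ} (h1 : LeadingTerm F n b) (h2 : LeadingTerm F m c) :
    n = m ∧ b = c := by
  have h3 : n = m := by
    have := h1.1.symm.trans h2.1
    exact_mod_cast this
  subst h3
  exact ⟨rfl, by exact_mod_cast h1.2.symm.trans h2.2⟩

/-- a smooth cut-off -/
noncomputable def cut (y : ℝ) : ℝ := Real.smoothTransition (1 - y)

theorem cut_smooth : ContDiff ℝ 3 fun y => (cut y : ℂ) := by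
  have h1 : ContDiff ℝ 3 cut := by
    unfold cut
    exact Real.smoothTransition.contDiff.comp (contDiff_const.sub contDiff_id)
  exact Complex.ofRealCLM.contDiff.comp h1

theorem cut_one {y : ℝ} (hy : 1 ≤ y) : (cut y : ℂ) = 0 := by
  unfold cut
  rw [Real.smoothTransition.zero_of_nonpos (by linarith), Complex.ofReal_zero]

theorem cut_zero : cut 0 = 1 := by
  unfold cut
  rw [sub_zero, Real.smoothTransition.one]

theorem cut_weight : Weight (fun y => (cut y : ℂ)) 1 := by
  refine ⟨cut_smooth.continuous.measurable, ⟨1, fun y _ => ?_⟩, one_ne_zero, ?_, ?_⟩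
  · unfold cut
    rw [Complex.norm_real, Real.norm_eq_abs, abs_of_nonneg (Real.smoothTransition.nonneg _)]
    exact Real.smoothTransition.le_one _
  · have h2 := cut_smooth.continuous.tendsto 0
    rw [cut_zero, Complex.ofReal_one] at h2
    exact tendsto_nhdsWithin_of_tendsto_nhds h2
  · have h1 := L0h3.LC.dini_c1 (cut_smooth.of_le (by norm_num))
    rw [cut_zero, Complex.ofReal_one] at h1
    exact h1

end proof

/-- **Truncated numerical forms of the strong conjecture of Birch and Swinnerton-Dyer.** -/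
theorem result (W : WeierstrassCurve ℤ) (_hΔ : W.Δ ≠ 0) (_hmin : ∀ v, MinimalAt (E W) v)
    (F : ℂ → ℂ) (hF : IsL W F) :
    (∀ (w : ℝ → ℂ) (w₀ A κ : ℂ), Weight w w₀ →
      Tendsto (fun X : ℝ => S W w X + A * (Real.log (Real.log X) : ℂ)) atTop (𝓝 κ) →
      RH F ∧ ∃ (n : ℕ) (b : ℝ), 0 < b ∧ LeadingTerm F n b ∧ A = w₀ * n ∧
        κ = limitConst w w₀ n b) ∧
    (ExpGrowth F → RH F → ∃ (n : ℕ) (b : ℝ), 0 < b ∧ LeadingTerm F n b ∧ SmoothLaw W n b) ∧
    (ExpGrowth F → ∀ (r : ℕ) (P : Fin r → (E W).toAffine.Point), IsBasisModTorsion W P →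
      List.TFAE [
        RH F ∧ StrongBSD W F P,
        Finite (Sha (E W)) ∧ 0 < predicted W P ∧
          ∃ (w : ℝ → ℂ) (w₀ : ℂ), Weight w w₀ ∧ Law W w w₀ r (predicted W P),
        Finite (Sha (E W)) ∧ 0 < predicted W P ∧ SmoothLaw W r (predicted W P)]) := by
  refine ⟨fun w w₀ A κ hw h => any_weight hF hw h, fun hgrow hRH => smooth hF hgrow hRH,
    fun hgrow r P _hP => ?_⟩
  tfae_have 1 → 3 := by
    rintro ⟨hRH, hfin, hlt⟩
    obtain ⟨n, b, h1, h2, h3⟩ := smooth hF hgrow hRH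
    obtain ⟨rfl, h4⟩ := leading_unique h2 hlt
    rw [← h4]
    exact ⟨hfin, h1, h3⟩
  tfae_have 3 → 2 := by
    rintro ⟨hfin, hpos, h⟩
    refine ⟨hfin, hpos, fun y => (cut y : ℂ), 1, cut_weight, ?_⟩
    obtain ⟨M, hM⟩ := h _ cut_smooth fun y hy => cut_one hy
    unfold Law
    rw [tendsto_iff_norm_sub_tendsto_zero]
    refine squeeze_zero' (g := fun X => M / Real.log X) (Eventually.of_forall fun X => norm_nonneg _)
      ?_ (Tendsto.const_div_atTop Real.tendsto_log_atTop M)
    filter_upwards [eventually_ge_atTop (3 : ℝ)] with X hX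
    have := hM X hX
    rwa [cut_zero, Complex.ofReal_one] at this
  tfae_have 2 → 1 := by
    rintro ⟨hfin, hpos, w, w₀, hw, h⟩
    obtain ⟨h1, n, b, hb, hlt, h2, h3⟩ := any_weight hF hw h
    have hw0 : w₀ ≠ 0 := hw.2.2.1
    have hn : r = n := by
      have := mul_left_cancel₀ hw0 h2
      exact_mod_cast this
    subst hn
    refine ⟨h1, hfin, ?_⟩
    have h4 : Real.log (predicted W P) = Real.log b := by
      unfold limitConst at h3
      have h5 := mul_left_cancel₀ hw0 (sub_left_injective h3)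
      have h6 := sub_left_injective h5
      exact_mod_cast h6
    have h5 : predicted W P = b := Real.log_injOn_pos hpos hb h4
    rw [h5]
    exact hlt
  tfae_finish

end Pool.Agent.Results.MP_4a9ea6_nt.TruncatedLeadingTerm
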